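import Mathlib
import Pool.Agent.N70.EO.Stm

/-!
Project EO (helper70), DY: weak solutions over `K(y)` (by helper558; the model is
`Pool/Agent/N607/EQ/RI.lean`).
-/

set_option autoImplicit false

namespace Pool.Agent.N558.EO

open Polynomial
open Pool.Agent.N600.NS (Degs WeakOver)
open Pool.Agent.N70.EQ (FPk fpk)

/-- normal extensions are splitting fields of non-zero polynomials -/
theorem exists_split (F E : Type) [Field F] [Field E] [Algebra F E] [FiniteDimensional F E]
    [Normal F E] : ∃ p : F[X], p ≠ 0 ∧ IsSplittingField F E p := by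
  obtain ⟨p, hp⟩ := Normal.exists_isSplittingField F E
  by_cases h0 : p = 0
  · refine ⟨1, one_ne_zero, ⟨?_, ?_⟩⟩
    · rw [Polynomial.map_one]
      exact Splits.one
    · have h1 := hp.adjoin_rootSet'
      rw [h0, rootSet_zero] at h1
      rw [rootSet_one]
      exact h1
  · exact ⟨p, h0, hp⟩

section bc

attribute [local instance] Polynomial.algebra

/-- base change of rational function fields -/
theorem exists_bc (K K' : Type) [Field K] [Field K'] [Algebra K K'] [FiniteDimensional K K'] :
    ∃ (_ : Algebra (RatFunc K) (RatFunc K')),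
      FiniteDimensional (RatFunc K) (RatFunc K') ∧
      Module.finrank (RatFunc K) (RatFunc K') = Module.finrank K K' ∧
      ∀ p : K[X], algebraMap (RatFunc K) (RatFunc K') (algebraMap K[X] (RatFunc K) p) =
        algebraMap K'[X] (RatFunc K') (p.map (algebraMap K K')) := by
  let _ : Algebra (RatFunc K) (RatFunc K') := RatFunc.liftAlgebra K (RatFunc K')
  have h : Module.finrank (RatFunc K) (RatFunc K') = Module.finrank K K' :=
    RatFunc.finrank_ratFunc_ratFunc K K'
  refine ⟨inferInstance, ?_, h, fun p => ?_⟩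
  · apply Module.finite_of_finrank_pos
    rw [h]
    exact Module.finrank_pos
  · have h1 : algebraMap (RatFunc K) (RatFunc K') (algebraMap K[X] (RatFunc K) p) =
        algebraMap K[X] (RatFunc K') p :=
      IsFractionRing.lift_algebraMap (FaithfulSMul.algebraMap_injective K[X] (RatFunc K')) p
    rw [h1]
    rfl

end bc

/-- the homomorphism from `L(X)` -/
theorem exists_phi {K L F : Type} [Field K] [Field L] [Algebra K L] [FiniteDimensional K L]
    [Field F] [Algebra (RatFunc K) F] [Algebra L F] [Algebra K F]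
    [IsScalarTower K (RatFunc K) F] [IsScalarTower K L F] (κ : RatFunc K →+* RatFunc L)
    (hκ : ∀ p : K[X], κ (algebraMap K[X] (RatFunc K) p) =
      algebraMap L[X] (RatFunc L) (p.map (algebraMap K L))) :
    ∃ φ : RatFunc L →+* F, (∀ l : L, φ (algebraMap L (RatFunc L) l) = algebraMap L F l) ∧
      ∀ y, φ (κ y) = algebraMap (RatFunc K) F y := by
  let TX : F := algebraMap (RatFunc K) F RatFunc.X
  have hTXK : Transcendental K TX := by
    have h1 : Transcendental K (RatFunc.X : RatFunc K) := by
      rw [← RatFunc.algebraMap_X]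
      exact (transcendental_algebraMap_iff (IsFractionRing.injective K[X] (RatFunc K))).2
        (Polynomial.transcendental_X K)
    exact (transcendental_algebraMap_iff (algebraMap (RatFunc K) F).injective).2 h1
  have hTX : Transcendental L TX := hTXK.extendScalars L
  let ev : L[X] →+* F := ((Polynomial.aeval TX : L[X] →ₐ[L] F) : L[X] →+* F)
  have hev : Function.Injective ev := transcendental_iff_injective.1 hTX
  let φ : RatFunc L →+* F := IsFractionRing.lift (A := L[X]) hev
  have hφ : ∀ p, φ (algebraMap L[X] (RatFunc L) p) = ev p := fun p =>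
    IsFractionRing.lift_algebraMap hev p
  have hφC : ∀ l : L, φ (algebraMap L (RatFunc L) l) = algebraMap L F l := by
    intro l
    have h1 : algebraMap L (RatFunc L) l = algebraMap L[X] (RatFunc L) (Polynomial.C l) := rfl
    rw [h1, hφ]
    change Polynomial.aeval TX (Polynomial.C l) = _
    rw [Polynomial.aeval_C]
  refine ⟨φ, hφC, fun y => ?_⟩
  have key : ∀ p : K[X], φ (κ (algebraMap K[X] (RatFunc K) p)) =
      algebraMap (RatFunc K) F (algebraMap K[X] (RatFunc K) p) := by
    intro p
    rw [hκ, hφ]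
    change Polynomial.aeval TX (p.map (algebraMap K L)) = _
    rw [Polynomial.aeval_map_algebraMap]
    induction p using Polynomial.induction_on' with
    | add p q hp hq => rw [map_add, hp, hq, map_add, map_add]
    | monomial n c =>
      rw [Polynomial.aeval_monomial, ← Polynomial.C_mul_X_pow_eq_monomial, map_mul, map_mul,
        map_pow, map_pow, RatFunc.algebraMap_X]
      congr 1
      have h1 : algebraMap K (RatFunc K) c = algebraMap K[X] (RatFunc K) (Polynomial.C c) := rfl
      rw [← h1, ← IsScalarTower.algebraMap_apply K (RatFunc K) F]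
  obtain ⟨p, q, hq, rfl⟩ := IsFractionRing.div_surjective (A := K[X]) y
  rw [map_div₀, map_div₀, map_div₀, key, key]

/-- the weak solution over `K'(y)` -/
theorem weak (K L L₁ : Type) [Field K] [CharZero K] [Field L] [Algebra K L]
    [FiniteDimensional K L] [IsGalois K L] [Field L₁] [Algebra (RatFunc K) L₁] [Algebra L L₁]
    [Algebra K L₁] [IsScalarTower K (RatFunc K) L₁] [IsScalarTower K L L₁]
    [FiniteDimensional (RatFunc K) L₁] [IsGalois (RatFunc K) L₁]
    (res : (L₁ ≃ₐ[RatFunc K] L₁) →* (L ≃ₐ[K] L))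
    (hres : ∀ (h : L₁ ≃ₐ[RatFunc K] L₁) (b : L),
        h (algebraMap L L₁ b) = algebraMap L L₁ (res h b))
    (B : Type) [Group B] (a : B →* (L ≃ₐ[K] L)) (K' : Type) [Field K'] [Algebra K K']
    [Algebra (RatFunc K) (RatFunc K')]
    (hbc : ∀ p : K[X], algebraMap (RatFunc K) (RatFunc K') (algebraMap K[X] (RatFunc K) p) =
        algebraMap K'[X] (RatFunc K') (p.map (algebraMap K K')))
    (h : WeakOver K L B a K') :
    WeakOver (RatFunc K) L₁ (FPk a res) (fpk a res) (RatFunc K') := by
  obtain ⟨M, j1, j2, j3, j4, j5, j6, j7, j8, s, hs⟩ := h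
  have c0 : CharZero K' := charZero_of_injective_algebraMap (algebraMap K K').injective
  have c1 : CharZero (RatFunc K') :=
    charZero_of_injective_algebraMap (algebraMap K' (RatFunc K')).injective
  obtain ⟨p, hp0, hp⟩ := exists_split (RatFunc K) L₁
  obtain ⟨q, hq0, hq⟩ := exists_split K' M
  have hp0' : p.map (algebraMap (RatFunc K) (RatFunc K')) ≠ 0 :=
    (Polynomial.map_ne_zero_iff (algebraMap (RatFunc K) (RatFunc K')).injective).2 hp0
  have hq0' : q.map (algebraMap K' (RatFunc K')) ≠ 0 :=
    (Polynomial.map_ne_zero_iff (algebraMap K' (RatFunc K')).injective).2 hq0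
  obtain ⟨P, hP⟩ : ∃ P : (RatFunc K')[X], P = p.map (algebraMap (RatFunc K) (RatFunc K')) *
    q.map (algebraMap K' (RatFunc K')) := ⟨_, rfl⟩
  have hP0 : P ≠ 0 := by
    rw [hP]
    exact mul_ne_zero hp0' hq0'
  obtain ⟨M', iM, iAM, hSF⟩ : ∃ (M' : Type) (_ : Field M') (_ : Algebra (RatFunc K') M'),
      IsSplittingField (RatFunc K') M' P :=
    ⟨SplittingField P, inferInstance, inferInstance, inferInstance⟩
  have hsp : Splits (P.map (algebraMap (RatFunc K') M')) := hSF.splits'
  have hPM0 : P.map (algebraMap (RatFunc K') M') ≠ 0 :=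
    (Polynomial.map_ne_zero_iff (algebraMap (RatFunc K') M').injective).2 hP0
  -- the algebra structures
  let _ : Algebra K' M' := ((algebraMap (RatFunc K') M').comp (algebraMap K' (RatFunc K'))).toAlgebra
  let _ : Algebra (RatFunc K) M' :=
    ((algebraMap (RatFunc K') M').comp (algebraMap (RatFunc K) (RatFunc K'))).toAlgebra
  let _ : Algebra K M' := ((algebraMap K' M').comp (algebraMap K K')).toAlgebra
  have t01 : IsScalarTower K' (RatFunc K') M' := IsScalarTower.of_algebraMap_eq fun x => rfl
  have t02 : IsScalarTower (RatFunc K) (RatFunc K') M' :=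
    IsScalarTower.of_algebraMap_eq fun x => rfl
  have t03 : IsScalarTower K K' M' := IsScalarTower.of_algebraMap_eq fun x => rfl
  have t04 : IsScalarTower K (RatFunc K) M' := by
    refine IsScalarTower.of_algebraMap_eq fun x => ?_
    have h1 : algebraMap K (RatFunc K) x = algebraMap K[X] (RatFunc K) (Polynomial.C x) := rfl
    have h2 : algebraMap K' (RatFunc K') (algebraMap K K' x) =
      algebraMap K'[X] (RatFunc K') (Polynomial.C (algebraMap K K' x)) := rfl
    rw [IsScalarTower.algebraMap_apply (RatFunc K) (RatFunc K') M', h1, hbc, Polynomial.map_C,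
      ← h2, ← IsScalarTower.algebraMap_apply K' (RatFunc K') M',
      ← IsScalarTower.algebraMap_apply K K' M']
  have hspq : Splits (q.map (algebraMap K' M')) := by
    have h1 : Splits ((q.map (algebraMap K' (RatFunc K'))).map (algebraMap (RatFunc K') M')) :=
      hsp.of_dvd hPM0 (Polynomial.map_dvd _ (by rw [hP]; exact dvd_mul_left _ _))
    rwa [Polynomial.map_map, ← IsScalarTower.algebraMap_eq] at h1
  have hspp : Splits (p.map (algebraMap (RatFunc K) M')) := by
    have h1 : Splits ((p.map (algebraMap (RatFunc K) (RatFunc K'))).map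
        (algebraMap (RatFunc K') M')) :=
      hsp.of_dvd hPM0 (Polynomial.map_dvd _ (by rw [hP]; exact dvd_mul_right _ _))
    rwa [Polynomial.map_map, ← IsScalarTower.algebraMap_eq] at h1
  -- the embedding of `M`
  let j : M →ₐ[K'] M' := IsSplittingField.lift M q hspq
  let _ : Algebra M M' := j.toRingHom.toAlgebra
  have t1 : IsScalarTower K' M M' := IsScalarTower.of_algebraMap_eq fun x => (j.commutes x).symm
  let _ : Algebra L M' := ((algebraMap M M').comp (algebraMap L M)).toAlgebra
  have t2 : IsScalarTower L M M' := IsScalarTower.of_algebraMap_eq fun x => rfl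
  have t3 : IsScalarTower K L M' := by
    refine IsScalarTower.of_algebraMap_eq fun x => ?_
    rw [IsScalarTower.algebraMap_apply L M M', ← IsScalarTower.algebraMap_apply K L M,
      IsScalarTower.algebraMap_apply K K' M, ← IsScalarTower.algebraMap_apply K' M M',
      ← IsScalarTower.algebraMap_apply K K' M']
  -- the field `L(y)`
  obtain ⟨iL, -, -, hκ⟩ := exists_bc K L
  obtain ⟨φ₁, hφ₁, hφ₁'⟩ := exists_phi (F := L₁) (algebraMap (RatFunc K) (RatFunc L)) hκ
  obtain ⟨φ₂, hφ₂, hφ₂'⟩ := exists_phi (F := M') (algebraMap (RatFunc K) (RatFunc L)) hκ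
  let _ : Algebra (RatFunc L) L₁ := φ₁.toAlgebra
  let _ : Algebra (RatFunc L) M' := φ₂.toAlgebra
  have t4 : IsScalarTower (RatFunc K) (RatFunc L) L₁ :=
    IsScalarTower.of_algebraMap_eq fun y => (hφ₁' y).symm
  have t5 : IsScalarTower (RatFunc K) (RatFunc L) M' :=
    IsScalarTower.of_algebraMap_eq fun y => (hφ₂' y).symm
  have hspL : Splits ((p.map (algebraMap (RatFunc K) (RatFunc L))).map
      (algebraMap (RatFunc L) M')) := by
    rw [Polynomial.map_map, ← IsScalarTower.algebraMap_eq]
    exact hspp
  have hsL : IsSplittingField (RatFunc L) L₁ (p.map (algebraMap (RatFunc K) (RatFunc L))) :=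
    inferInstance
  let ψ : L₁ →ₐ[RatFunc L] M' :=
    IsSplittingField.lift L₁ (p.map (algebraMap (RatFunc K) (RatFunc L))) hspL
  let _ : Algebra L₁ M' := ψ.toRingHom.toAlgebra
  have t6 : IsScalarTower (RatFunc L) L₁ M' :=
    IsScalarTower.of_algebraMap_eq fun x => (ψ.commutes x).symm
  have t7 : IsScalarTower (RatFunc K) L₁ M' := by
    refine IsScalarTower.of_algebraMap_eq fun x => ?_
    rw [IsScalarTower.algebraMap_apply (RatFunc K) (RatFunc L) L₁,
      ← IsScalarTower.algebraMap_apply (RatFunc L) L₁ M',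
      ← IsScalarTower.algebraMap_apply (RatFunc K) (RatFunc L) M']
  have t8 : ∀ l : L, algebraMap L₁ M' (algebraMap L L₁ l) = algebraMap L M' l := by
    intro l
    rw [← hφ₁ l]
    have h1 : φ₁ (algebraMap L (RatFunc L) l) = algebraMap (RatFunc L) L₁
      (algebraMap L (RatFunc L) l) := rfl
    rw [h1, ← IsScalarTower.algebraMap_apply (RatFunc L) L₁ M']
    exact hφ₂ l
  have n1 : Normal (RatFunc K') M' := Normal.of_isSplittingField P
  have f1 : FiniteDimensional (RatFunc K') M' := IsSplittingField.finiteDimensional M' P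
  have g1 : IsGalois (RatFunc K') M' := ⟨⟩
  -- the restrictions
  let r1 : (M' ≃ₐ[RatFunc K'] M') →* (M ≃ₐ[K'] M) :=
    (AlgEquiv.restrictNormalHom M).comp
      { toFun := fun σ => σ.restrictScalars K'
        map_one' := rfl
        map_mul' := fun _ _ => rfl }
  let r2 : (M' ≃ₐ[RatFunc K'] M') →* (L₁ ≃ₐ[RatFunc K] L₁) :=
    (AlgEquiv.restrictNormalHom L₁).comp
      { toFun := fun σ => σ.restrictScalars (RatFunc K)
        map_one' := rfl
        map_mul' := fun _ _ => rfl }
  have hr1 : ∀ (σ : M' ≃ₐ[RatFunc K'] M') (x : M),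
      algebraMap M M' (r1 σ x) = σ (algebraMap M M' x) :=
    fun σ x => AlgEquiv.restrictNormal_commutes (σ.restrictScalars K') M x
  have hr2 : ∀ (σ : M' ≃ₐ[RatFunc K'] M') (x : L₁),
      algebraMap L₁ M' (r2 σ x) = σ (algebraMap L₁ M' x) :=
    fun σ x => AlgEquiv.restrictNormal_commutes (σ.restrictScalars (RatFunc K)) L₁ x
  have hmem : ∀ σ : M' ≃ₐ[RatFunc K'] M',
      ((s (r1 σ), r2 σ) : B × (L₁ ≃ₐ[RatFunc K] L₁)) ∈ FPk a res := by
    intro σ
    show a (s (r1 σ)) = res (r2 σ)
    apply AlgEquiv.ext
    intro x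
    apply (algebraMap L M').injective
    have e1 : algebraMap L M' (a (s (r1 σ)) x) = σ (algebraMap L M' x) := by
      rw [IsScalarTower.algebraMap_apply L M M', ← hs, hr1, ← IsScalarTower.algebraMap_apply L M M']
    have e2 : algebraMap L M' (res (r2 σ) x) = σ (algebraMap L M' x) := by
      rw [← t8, ← hres, hr2, t8]
    rw [e1, e2]
  refine ⟨M', inferInstance, inferInstance, inferInstance, inferInstance, t02, t7,
    f1, g1, ((s.comp r1).prod r2).codRestrict _ hmem, fun σ x => ?_⟩
  exact (hr2 σ x).symm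

theorem t_dy : Pool.Agent.N70.EO.St_dy := by
  intro K L L₁ _ _ _ _ _ _ _ _ _ _ _ _ _ _ res hres B _ a m hm
  obtain ⟨K', i1, i2, i3, i4, h⟩ := hm
  obtain ⟨iA, hfd, hfr, hbc⟩ := exists_bc K K'
  exact ⟨RatFunc K', inferInstance, iA, hfd, by rw [hfr, i4], weak K L L₁ res hres B a K' hbc h⟩

end Pool.Agent.N558.EO
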